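import Mathlib
import Pool.Agent.H65.STDef
import Pool.Agent.H65.ST14
import Pool.Agent.H65.ST18
import Pool.Agent.H65.ST19
import Pool.Agent.H48.SteinM5

/-!
# Stein operators of minimal degree for `H_p(X)` characterise

`PolyOp`, `PolyOp.deg`, `PolyOp.app`, `PolyOp.testClass`, `PolyOp.IsStein`, `minDeg`,
`PolyOp.Characterises` and `lawH` are defined in `Pool.Agent.H65.STDef` exactly as in the problem file.

We prove: for every `p ≥ 1` the law of `H_p(X)` has a polynomial Stein operator, and every polynomial
Stein operator `S` for `H_p(X)` with `m(S) = m_p` characterises `H_p(X)`.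

Idea of the proof.  Stein operators correspond to linear differential equations with polynomial
coefficients for the characteristic function `φ` of `H_p(X)`, with `m(S)` the order.  If `S` has minimal
degree and `W` satisfies the identities of `S`, then the difference `ψ` of the characteristic functions of
`W` and `H_p(X)` satisfies *every* polynomial-coefficient equation satisfied by `φ`.  All functions
`E[X^j e^{iξH_p(X)}]` are obtained from `φ` by operators with rational coefficients (cyclicity), so `ψ`
is the first member of a family satisfying the first-order system of the functions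
`E[X^j e^{iξH_p(X)}]`.  The system forces `ψ` to be flat at `0`, so `W` has the moments of `H_p(X)`;
these are so small that `|ψ(ξ)|` decays like `exp(-a ξ^{-2/(p-2)})`, faster than any nonzero solution of
the system can.  So `ψ = 0` near `0`, and then everywhere.
-/

namespace Pool.Agent.Results.MP_0c6895_pr.MinimalSteinCharacterises

open Pool.Agent.H65.ST Polynomial

theorem characterises {p : ℕ} (hp1 : 1 ≤ p) {S : PolyOp} (hS : S.IsStein (lawH p))
    (hmin : S.deg = minDeg (lawH p)) : S.Characterises (lawH p) := by
  rcases lt_or_ge p 3 with h3 | h3
  · interval_cases p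
    · exact case_one hS hmin
    · exact case_two hS hmin
  · rw [lawH_eq] at *
    have hnd : (hp p).natDegree = p := hp_natDegree p
    have hpar : Odd (hp p).natDegree ∨ ∀ x, (hp p).eval (-x) = (hp p).eval x := by
      rw [hnd]
      rcases Nat.even_or_odd p with he | ho
      · exact Or.inr (hp_neg_eval he)
      · exact Or.inl ho
    exact characterises_of_cyclic (hp_monic p) (d := p - 2) (by rw [hnd]; omega) (by omega)
      (H48Stein.exists_act (hp p) (hp_monic p) (by rw [hnd]; exact h3) hpar) hS hmin

/-- **Main theorem.** For every `p ≥ 1`, polynomial Stein operators for `H_p(X)` exist, and every one of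
minimal maximal degree characterises `H_p(X)`. -/
theorem result : ∀ p : ℕ, 1 ≤ p →
    (∃ S : PolyOp, S.IsStein (lawH p)) ∧
    ∀ S : PolyOp, S.IsStein (lawH p) → S.deg = minDeg (lawH p) → S.Characterises (lawH p) :=
  fun _ hp1 => ⟨exists_stein_lawH hp1, fun _ hS hmin => characterises hp1 hS hmin⟩

end Pool.Agent.Results.MP_0c6895_pr.MinimalSteinCharacterises
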